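import Mathlib
import Pool.Agent.H.MP_2fe47b_co.K5

namespace Pool.Agent.Results.MP_2fe47b_co.BelowThreeQuarters

open Finset

/-- The Kuramoto energy of a graph on the torus `(ℝ/2πℤ)^n`. -/
noncomputable def energy {n : ℕ} (G : SimpleGraph (Fin n)) [DecidableRel G.Adj]
    (θ : Fin n → Real.Angle) : ℝ :=
  1 / 2 * ∑ i, ∑ j, G.adjMatrix ℝ i j * (1 - (θ i - θ j).cos)

/-- Every local minimum of the energy is a constant configuration. -/
def GloballySynchronizing {n : ℕ} (G : SimpleGraph (Fin n)) [DecidableRel G.Adj] : Prop :=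
  ∀ θ, IsLocalMin (energy G) θ → ∃ c, ∀ i, θ i = c

theorem result :
    ∃ ε : ℝ, 0 < ε ∧ ∀ (n : ℕ) (G : SimpleGraph (Fin n)) [DecidableRel G.Adj],
      (3 / 4 - ε) * n ≤ G.minDegree → GloballySynchronizing G := by
  refine ⟨1 / 10 ^ 32, by norm_num, fun n G _ hd θ h => ?_⟩
  rcases Nat.eq_zero_or_pos n with rfl | hn
  · exact ⟨0, fun i => i.elim0⟩
  refine ⟨θ ⟨0, hn⟩, fun i => Pool.Agent.H.MP_2fe47b_co.torus G (fun v => ?_) θ h _ _⟩
  have : (G.minDegree : ℝ) ≤ G.degree v := by exact_mod_cast G.minDegree_le_degree v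
  linarith

end Pool.Agent.Results.MP_2fe47b_co.BelowThreeQuarters
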